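import Pool.Agent.Q68.CJ.D4H
import Pool.Agent.Q7.CJ.Stm2

/-!
# Project CJ (helper7), jobs D4G and D4
-/

set_option autoImplicit false

namespace Pool.Agent.Q153.CJ

open Polynomial Pool.Agent.Q7.CJ

theorem d4g_of (h4 : S_D4H) : S_D4G := by
  intro p _ _ L _ _ ζ hζ D hD I hI hn M _ _ _ _ h J hJ hs
  obtain ⟨ρ, h0, hν, hτ⟩ := h4 p L ζ hζ D hD I hI hn M (algebraMap L M) (algebraMap L M D) rfl h J hJ hs
  refine ⟨ρ, h0, hν, fun τ => ?_⟩
  exact hτ ((τ : M →ₐ[L] M) : M →+* M) τ.bijective (fun x => τ.commutes x) (τ.commutes D)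

/-- **JOB D4G** -/
theorem d4g : S_DED → S_NMM → S_MV → S_BC → S_NI → S_AMB → S_D4G :=
  fun h1 h2 h3 h4 h5 h6 => d4g_of (Pool.Agent.Q68.CJ.d4h h1 h2 h3 h4 h5 h6)

theorem d4_of (hNMM : S_NMM) (h4 : S_D4G) : S_D4 := by
  intro p _ _ L _ _ ζ hζ D hD I hI s hs hn M _ _ _ _ h J hJ hsim τ
  have hp : p.Prime := Fact.out
  have hD' : algebraMap L M D ≠ 0 := (map_ne_zero_iff _ (algebraMap L M).injective).2 hD
  haveI : CharZero M := charZero_of_injective_algebraMap (algebraMap L M).injective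
  obtain ⟨ρ, h0, ⟨ν, hν0, hν⟩, hτ⟩ := h4 p L ζ hζ D hD I hI (by rw [hn]; exact pow_ne_zero _ hs) M h J hJ hsim
  obtain ⟨⟨k, hk⟩, hk2⟩ := hτ τ
  have hζM : IsPrimitiveRoot (algebraMap L M ζ) p := hζ.map_of_injective (algebraMap L M).injective
  -- `ρ` is in the ground field
  have hρ : ∃ c : L, ρ = algebraMap L M c := by
    have h1 : ρ ^ p = (algebraMap L M (s ^ 2 * ν)) ^ p := by
      rw [hν, hn, ← map_pow]
      congr 1
      ring
    have h2 : algebraMap L M (s ^ 2 * ν) ≠ 0 :=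
      (map_ne_zero_iff _ (algebraMap L M).injective).2 (mul_ne_zero (pow_ne_zero _ hs) hν0)
    have h3 : (ρ / algebraMap L M (s ^ 2 * ν)) ^ p = 1 := by
      rw [div_pow, h1, div_self (pow_ne_zero _ h2)]
    haveI : NeZero p := ⟨hp.ne_zero⟩
    obtain ⟨j, -, hj⟩ := hζM.eq_pow_of_pow_eq_one h3
    refine ⟨ζ ^ j * (s ^ 2 * ν), ?_⟩
    rw [map_mul, map_pow, hj, div_mul_cancel₀ _ h2]
  obtain ⟨c, hc⟩ := hρ
  have h5 := hk2 k hk
  have h6 : τ ρ = ρ := by rw [hc]; exact τ.commutes c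
  rw [h6] at h5
  have h7 : algebraMap L M ζ ^ k = 1 := by
    have h8 : (algebraMap L M ζ ^ k - 1) * ρ = 0 := by
      rw [sub_mul, one_mul, ← h5, sub_self]
    exact sub_eq_zero.1 ((mul_eq_zero.1 h8).resolve_right h0)
  obtain ⟨m, rfl⟩ := (hζM.pow_eq_one_iff_dvd k).1 h7
  obtain ⟨-, -, -, -, -, -, ht1, -, -, -, hy, -, -⟩ := hNMM p M (algebraMap L M D) hD'
  have hyy : yy p (algebraMap L M D) ≠ 0 := by
    intro h9
    rw [h9, Ideal.span_singleton_zero] at hy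
    exact pow_ne_zero p ht1 hy
  refine Pool.Agent.Q224.CJ.sim_trans hk ?_
  refine ⟨1, yy p (algebraMap L M D) ^ m, one_ne_zero, pow_ne_zero _ hyy, ?_⟩
  rw [Ideal.span_singleton_one, Ideal.top_mul, pow_mul, hy, Ideal.span_singleton_pow, mul_comm]

/-- **JOB D4** -/
theorem d4 : S_DED → S_NMM → S_MV → S_BC → S_NI → S_AMB → S_D4 :=
  fun h1 h2 h3 h4 h5 h6 => d4_of h2 (d4g h1 h2 h3 h4 h5 h6)

end Pool.Agent.Q153.CJ
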